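import Pool.Agent.N58.MH.Main
import Pool.Agent.N58.MH.L1

/-!
# A locally compact Mumford group with circle center which is not a generalized Heisenberg group

The definitions are in `Pool/Agent/N58/MH/Defs.lean`.

* `IsMumford G`: `G` is a locally compact Hausdorff group, all commutators are central, the center is
  isomorphic to `ℝ/ℤ` (as a topological group, by `φ`), and `x Z(G) ↦ (y Z(G) ↦ φ(x y x⁻¹ y⁻¹))` is an
  isomorphism of topological groups from `K = G/Z(G)` onto the Pontryagin dual of `K`.
* `IsGenHeisenberg G`: `G` is isomorphic, as a topological group, to `A × E × F` with the product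
  `(a, b, c) (a', b', c') = (a + a' + ω(b, c'), b + b', c + c')`, for topological abelian groups `A`, `E`,
  `F` and a continuous bilinear map `ω : E × F → A`.

The group `K` is the restricted product over all odd primes `p` of the finite groups
`K_p = (ℤ/p⁸)² × (ℤ/p⁴)²`, with the form `(x₁ y₂ - x₂ y₁)/p⁸ - (x₃ y₄ - x₄ y₃)/p⁴`, with respect to the
Lagrangian subgroups `L_p` of all `(p⁴ b, -p² a, -p² b, a - p b + p² c)`. Division by two gives the
group `G = ℝ/ℤ × K`. If `G` is a generalized Heisenberg group, then `K` is the direct sum of two closed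
isotropic subgroups, hence for almost all `p` there is an idempotent endomorphism `π` of `K_p` with
`π(L_p) ⊆ L_p` and adjoint `1 - π`. On the quotient `K_p/L_p ≅ ℤ/p⁶ × ℤ/p⁴ × ℤ/p²` it has diagonal
entries `a₁`, `a₂`, `a₃` modulo `p` with `a₁ + a₂ = a₁ + a₃ = a₂ + a₃ = 1` and `a₁² = a₁`, a
contradiction.

Parts of the proof are by helper38 (`L1.lean`), helper556 (`L2.lean`), helper271 (`L4.lean`) and
helper930 (`L5.lean`).
-/

set_option autoImplicit false

namespace Pool.Agent.Results.MP_9969af_al.MumfordNotHeisenberg

open Pool.Agent.N58.MH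

/-- There is a locally compact Mumford group with center `ℝ/ℤ` which is not a generalized Heisenberg
group. -/
theorem result : ∃ (G : Type) (_ : Group G) (_ : TopologicalSpace G),
    IsMumford G ∧ ¬ IsGenHeisenberg G :=
  main (fun n hn _ π hL h2 h1 h3 => no_split n hn π hL h2 h1 h3)

end Pool.Agent.Results.MP_9969af_al.MumfordNotHeisenberg
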